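import Mathlib
import Pool.Agent.Q276.BA.Stm2

/-!
# Project BA (helper276), lemma `S_N2a` (by helper181)

The angular average of `|1 - ρ e^(iθ)|^(-3/2)` is at most `1.2 (1 - ρ²)^(-1/2)`: Parseval for `(1 - z)^(-3/4)` and a comparison
of coefficients.
-/

set_option autoImplicit false

open MeasureTheory Set Filter Topology
open scoped BigOperators

namespace Pool.Agent.Q181.BA

/-- coefficients of `(1 - z)^(-a)` -/
noncomputable def ac (a : ℝ) (n : ℕ) : ℝ := (ascPochhammer ℝ n).eval a / (n.factorial : ℝ)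

theorem ac_zero (a : ℝ) : ac a 0 = 1 := by simp [ac]

theorem ac_succ (a : ℝ) (n : ℕ) : ac a (n + 1) = ac a n * ((a + n) / (n + 1)) := by
  unfold ac
  rw [ascPochhammer_succ_eval, Nat.factorial_succ]
  have h1 : ((n.factorial : ℕ) : ℝ) ≠ 0 := by exact_mod_cast Nat.factorial_ne_zero n
  have h2 : ((n : ℝ) + 1) ≠ 0 := by positivity
  push_cast
  field_simp

theorem choose_eq (a : ℝ) (n : ℕ) : Ring.choose (a + n - 1) n = ac a n := by
  rw [Ring.choose_eq_smul, Polynomial.descPochhammer_smeval_eq_ascPochhammer]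
  have h : a + (n : ℝ) - 1 - n + 1 = a := by ring
  rw [h, Polynomial.ascPochhammer_smeval_cast, Polynomial.ascPochhammer_smeval_eq_eval]
  unfold ac
  rw [div_eq_inv_mul]
  simp

theorem ac_nonneg (a : ℝ) (ha : 0 ≤ a) (n : ℕ) : 0 ≤ ac a n := by
  induction n with
  | zero => rw [ac_zero]; norm_num
  | succ n ih => rw [ac_succ]; positivity

theorem hasSum_real (a x : ℝ) (hx : |x| < 1) : HasSum (fun n : ℕ => ac a n * x ^ n) (1 / (1 - x) ^ a) := by
  have h := (Real.one_div_one_sub_rpow_hasFPowerSeriesOnBall_zero a).hasSum (y := x) (by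
    rw [← ENNReal.ofReal_one, Metric.eball_ofReal]; simpa using hx)
  simp only [zero_add] at h
  have e : (fun n : ℕ => (FormalMultilinearSeries.ofScalars ℝ (fun n : ℕ => Ring.choose (a + n - 1) n)) n
      (fun _ : Fin n => x)) = fun n : ℕ => ac a n * x ^ n := by
    funext n
    simp [choose_eq, mul_comm]
  rw [e] at h
  exact h

theorem hasSum_complex (a : ℝ) (z : ℂ) (hz : ‖z‖ < 1) :
    HasSum (fun n : ℕ => (ac a n : ℂ) * z ^ n) (1 / (1 - z) ^ (a : ℂ)) := by
  have h := (Complex.one_div_one_sub_cpow_hasFPowerSeriesOnBall_zero (a : ℂ)).hasSum (y := z) (by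
    rw [← ENNReal.ofReal_one, Metric.eball_ofReal]; simpa using hz)
  simp only [zero_add] at h
  have e : (fun n : ℕ => (FormalMultilinearSeries.ofScalars ℂ (fun n : ℕ => Ring.choose ((a : ℂ) + n - 1) n)) n
      (fun _ : Fin n => z)) = fun n : ℕ => (ac a n : ℂ) * z ^ n := by
    funext n
    have h2 : Ring.choose ((a : ℂ) + n - 1) n = (ac a n : ℂ) := by
      rw [← choose_eq, Complex.ofReal_choose]
      push_cast
      rfl
    simp [h2, mul_comm]
  rw [e] at h
  exact h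

theorem int_exp (n : ℤ) (hn : n ≠ 0) : ∫ θ in (0 : ℝ)..(2 * Real.pi), Complex.exp ((n : ℂ) * (θ * Complex.I)) = 0 := by
  have h : ∀ θ : ℝ, Complex.exp ((n : ℂ) * (θ * Complex.I)) = Complex.exp (((n : ℂ) * Complex.I) * θ) := by
    intro θ; congr 1; ring
  simp_rw [h]
  have hc : ((n : ℂ) * Complex.I) ≠ 0 := mul_ne_zero (by exact_mod_cast hn) Complex.I_ne_zero
  rw [integral_exp_mul_complex hc]
  have h2 : ((n : ℂ) * Complex.I) * ((2 * Real.pi : ℝ) : ℂ) = n * (2 * Real.pi * Complex.I) := by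
    push_cast; ring
  rw [h2, Complex.exp_int_mul_two_pi_mul_I]
  simp

theorem int_exp_ite (n : ℤ) : ∫ θ in (0 : ℝ)..(2 * Real.pi), Complex.exp ((n : ℂ) * (θ * Complex.I)) =
    if n = 0 then ((2 * Real.pi : ℝ) : ℂ) else 0 := by
  split_ifs with h
  · subst h; simp
  · exact int_exp n h

/-- Parseval -/
theorem parseval (c : ℕ → ℝ) (hc : ∀ n, 0 ≤ c n) (hs : Summable c) (g : ℝ → ℂ) (hg : Continuous g)
    (h : ∀ θ : ℝ, HasSum (fun j : ℕ => (c j : ℂ) * Complex.exp ((j : ℂ) * (θ * Complex.I))) (g θ)) :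
    HasSum (fun j : ℕ => 2 * Real.pi * c j ^ 2) (∫ θ in (0 : ℝ)..(2 * Real.pi), ‖g θ‖ ^ 2) := by
  -- coefficients
  have hcoef : ∀ k : ℕ, ∫ θ in (0 : ℝ)..(2 * Real.pi), g θ * Complex.exp (-(k : ℂ) * (θ * Complex.I)) =
      2 * Real.pi * c k := by
    intro k
    have hF := intervalIntegral.hasSum_integral_of_dominated_convergence (μ := volume) (a := 0) (b := 2 * Real.pi)
      (F := fun (j : ℕ) (θ : ℝ) => ((c j : ℂ) * Complex.exp ((j : ℂ) * (θ * Complex.I))) *
        Complex.exp (-(k : ℂ) * (θ * Complex.I)))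
      (f := fun θ => g θ * Complex.exp (-(k : ℂ) * (θ * Complex.I))) (bound := fun j _ => c j)
      (by
        intro j
        apply Continuous.aestronglyMeasurable
        fun_prop)
      (by
        intro j
        refine Filter.Eventually.of_forall (fun θ _ => ?_)
        rw [norm_mul, norm_mul]
        have e1 : ‖Complex.exp ((j : ℂ) * (θ * Complex.I))‖ = 1 := by
          rw [show (j : ℂ) * (θ * Complex.I) = ((j * θ : ℝ) : ℂ) * Complex.I by push_cast; ring]
          exact Complex.norm_exp_ofReal_mul_I _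
        have e2 : ‖Complex.exp (-(k : ℂ) * (θ * Complex.I))‖ = 1 := by
          rw [show -(k : ℂ) * (θ * Complex.I) = ((-k * θ : ℝ) : ℂ) * Complex.I by push_cast; ring]
          exact Complex.norm_exp_ofReal_mul_I _
        rw [e1, e2, Complex.norm_real, Real.norm_of_nonneg (hc j)]
        simp)
      (Filter.Eventually.of_forall (fun θ _ => hs))
      (intervalIntegrable_const)
      (Filter.Eventually.of_forall (fun θ _ => (h θ).mul_right _))
    have e : ∀ j : ℕ, ∫ θ in (0 : ℝ)..(2 * Real.pi), ((c j : ℂ) * Complex.exp ((j : ℂ) * (θ * Complex.I))) *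
        Complex.exp (-(k : ℂ) * (θ * Complex.I)) = if j = k then 2 * Real.pi * (c k : ℂ) else 0 := by
      intro j
      have e1 : ∀ θ : ℝ, ((c j : ℂ) * Complex.exp ((j : ℂ) * (θ * Complex.I))) *
          Complex.exp (-(k : ℂ) * (θ * Complex.I)) =
          (c j : ℂ) * Complex.exp ((((j : ℤ) - (k : ℤ) : ℤ) : ℂ) * (θ * Complex.I)) := by
        intro θ
        rw [mul_assoc, ← Complex.exp_add]
        congr 2
        push_cast
        ring
      simp_rw [e1]
      rw [intervalIntegral.integral_const_mul, int_exp_ite]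
      by_cases hjk : j = k
      · subst hjk; simp; ring
      · have : ((j : ℤ) - (k : ℤ)) ≠ 0 := by omega
        simp [this, hjk]
    simp only [e] at hF
    have hF2 : HasSum (fun j : ℕ => if j = k then 2 * Real.pi * (c k : ℂ) else 0) (2 * Real.pi * (c k : ℂ)) :=
      hasSum_ite_eq k _
    exact hF.unique hF2
  have hbd : ∀ θ : ℝ, ‖g θ‖ ≤ ∑' j, c j := by
    intro θ
    have hn : ∀ j : ℕ, ‖(c j : ℂ) * Complex.exp ((j : ℂ) * (θ * Complex.I))‖ = c j := by
      intro j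
      rw [norm_mul, Complex.norm_real, Real.norm_of_nonneg (hc j)]
      have e1 : ‖Complex.exp ((j : ℂ) * (θ * Complex.I))‖ = 1 := by
        rw [show (j : ℂ) * (θ * Complex.I) = ((j * θ : ℝ) : ℂ) * Complex.I by push_cast; ring]
        exact Complex.norm_exp_ofReal_mul_I _
      rw [e1, mul_one]
    have h1 := norm_tsum_le_tsum_norm (f := fun j : ℕ => (c j : ℂ) * Complex.exp ((j : ℂ) * (θ * Complex.I)))
      (by simp only [hn]; exact hs)
    rw [(h θ).tsum_eq] at h1
    simp only [hn] at h1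
    exact h1
  have hC : 0 ≤ ∑' j, c j := tsum_nonneg hc
  have hF := intervalIntegral.hasSum_integral_of_dominated_convergence (μ := volume) (a := 0) (b := 2 * Real.pi)
    (F := fun (j : ℕ) (θ : ℝ) => (c j : ℂ) * (g θ * Complex.exp (-(j : ℂ) * (θ * Complex.I))))
    (f := fun θ => ((‖g θ‖ ^ 2 : ℝ) : ℂ)) (bound := fun j _ => c j * ∑' j, c j)
    (by
      intro j
      apply Continuous.aestronglyMeasurable
      fun_prop)
    (by
      intro j
      refine Filter.Eventually.of_forall (fun θ _ => ?_)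
      rw [norm_mul, norm_mul, Complex.norm_real, Real.norm_of_nonneg (hc j)]
      have e2 : ‖Complex.exp (-(j : ℂ) * (θ * Complex.I))‖ = 1 := by
        rw [show -(j : ℂ) * (θ * Complex.I) = ((-j * θ : ℝ) : ℂ) * Complex.I by push_cast; ring]
        exact Complex.norm_exp_ofReal_mul_I _
      rw [e2, mul_one]
      exact mul_le_mul_of_nonneg_left (hbd θ) (hc j))
    (Filter.Eventually.of_forall (fun θ _ => hs.mul_right _))
    (intervalIntegrable_const)
    (Filter.Eventually.of_forall (fun θ _ => by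
      have h1 := ((Complex.hasSum_conj'.mpr (h θ)).mul_left (g θ))
      have e1 : g θ * (starRingEnd ℂ) (g θ) = ((‖g θ‖ ^ 2 : ℝ) : ℂ) := by
        rw [Complex.mul_conj, Complex.normSq_eq_norm_sq]
      rw [e1] at h1
      have e4 : (fun j : ℕ => g θ * (starRingEnd ℂ) ((c j : ℂ) * Complex.exp ((j : ℂ) * (θ * Complex.I)))) =
          fun j : ℕ => (c j : ℂ) * (g θ * Complex.exp (-(j : ℂ) * (θ * Complex.I))) := by
        funext j
        have e5 : (starRingEnd ℂ) (Complex.exp ((j : ℂ) * (θ * Complex.I))) = Complex.exp (-(j : ℂ) * (θ * Complex.I)) := by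
          rw [← Complex.exp_conj, map_mul, map_mul, Complex.conj_I, Complex.conj_ofReal, Complex.conj_natCast]
          congr 1
          ring
        rw [map_mul, Complex.conj_ofReal, e5]
        ring
      rw [e4] at h1
      exact h1))
  simp only [intervalIntegral.integral_const_mul, hcoef] at hF
  rw [intervalIntegral.integral_ofReal] at hF
  have e3 : (fun j : ℕ => (c j : ℂ) * (2 * Real.pi * c j)) = fun j : ℕ => ((2 * Real.pi * c j ^ 2 : ℝ) : ℂ) := by
    funext j; push_cast; ring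
  rw [e3] at hF
  exact Complex.hasSum_ofReal.mp hF

/-- comparison of the coefficients -/
theorem coef_le (j : ℕ) : ac (3 / 4) (j + 1) ^ 2 ≤ 1.2 * (1 - 1 / (16 * ((j : ℝ) + 1))) * ac (1 / 2) (j + 1) := by
  induction j with
  | zero =>
    rw [ac_succ, ac_succ, ac_zero, ac_zero]
    norm_num
  | succ n ih =>
    rw [ac_succ (3 / 4) (n + 1), ac_succ (1 / 2) (n + 1), mul_pow]
    have hb := ac_nonneg (1 / 2) (by norm_num) (n + 1)
    have h1 : ac (3 / 4) (n + 1) ^ 2 * ((3 / 4 + ((n + 1 : ℕ) : ℝ)) / (((n + 1 : ℕ) : ℝ) + 1)) ^ 2 ≤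
        (1.2 * (1 - 1 / (16 * ((n : ℝ) + 1))) * ac (1 / 2) (n + 1)) *
          ((3 / 4 + ((n + 1 : ℕ) : ℝ)) / (((n + 1 : ℕ) : ℝ) + 1)) ^ 2 :=
      mul_le_mul_of_nonneg_right ih (by positivity)
    refine h1.trans ?_
    have h2 : (1 - 1 / (16 * ((n : ℝ) + 1))) * ((3 / 4 + ((n + 1 : ℕ) : ℝ)) / (((n + 1 : ℕ) : ℝ) + 1)) ^ 2 ≤
        (1 - 1 / (16 * (((n + 1 : ℕ) : ℝ) + 1))) * ((1 / 2 + ((n + 1 : ℕ) : ℝ)) / (((n + 1 : ℕ) : ℝ) + 1)) := by
      push_cast
      have hn : (0 : ℝ) ≤ n := Nat.cast_nonneg n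
      rw [← sub_nonneg]
      have e : (1 - 1 / (16 * ((n : ℝ) + 1 + 1))) * ((1 / 2 + ((n : ℝ) + 1)) / ((n : ℝ) + 1 + 1)) -
          (1 - 1 / (16 * ((n : ℝ) + 1))) * ((3 / 4 + ((n : ℝ) + 1)) / ((n : ℝ) + 1 + 1)) ^ 2 =
          (9 / 16) / (16 * ((n : ℝ) + 1) * ((n : ℝ) + 1 + 1) ^ 2) := by
        field_simp
        ring
      rw [e]
      positivity
    calc _ = 1.2 * ac (1 / 2) (n + 1) * ((1 - 1 / (16 * ((n : ℝ) + 1))) *
          ((3 / 4 + ((n + 1 : ℕ) : ℝ)) / (((n + 1 : ℕ) : ℝ) + 1)) ^ 2) := by ring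
      _ ≤ 1.2 * ac (1 / 2) (n + 1) * ((1 - 1 / (16 * (((n + 1 : ℕ) : ℝ) + 1))) *
          ((1 / 2 + ((n + 1 : ℕ) : ℝ)) / (((n + 1 : ℕ) : ℝ) + 1))) :=
          mul_le_mul_of_nonneg_left h2 (by positivity)
      _ = _ := by ring

theorem coef_le' (j : ℕ) : ac (3 / 4) j ^ 2 ≤ 1.2 * ac (1 / 2) j := by
  cases j with
  | zero => rw [ac_zero, ac_zero]; norm_num
  | succ n =>
    refine (coef_le n).trans ?_
    have hb := ac_nonneg (1 / 2) (by norm_num) (n + 1)
    have h1 : 1 - 1 / (16 * ((n : ℝ) + 1)) ≤ 1 := by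
      have : (0 : ℝ) ≤ 1 / (16 * ((n : ℝ) + 1)) := by positivity
      linarith
    have : 1.2 * (1 - 1 / (16 * ((n : ℝ) + 1))) * ac (1 / 2) (n + 1) =
      (1 - 1 / (16 * ((n : ℝ) + 1))) * (1.2 * ac (1 / 2) (n + 1)) := by ring
    rw [this]
    exact mul_le_of_le_one_left (by positivity) h1

open Pool.Agent.Q276.BA

theorem n2a : S_N2a := by
  intro ρ h0 h1
  have hz : ∀ θ : ℝ, ‖(ρ : ℂ) * Complex.exp (θ * Complex.I)‖ = ρ := by
    intro θ
    rw [norm_mul, Complex.norm_exp_ofReal_mul_I, mul_one, Complex.norm_real, Real.norm_of_nonneg h0]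
  have hne : ∀ θ : ℝ, 1 - (ρ : ℂ) * Complex.exp (θ * Complex.I) ∈ Complex.slitPlane := by
    intro θ
    rw [sub_eq_add_neg]
    apply Complex.mem_slitPlane_of_norm_lt_one
    rw [norm_neg, hz]; exact h1
  set g : ℝ → ℂ := fun θ => 1 / (1 - (ρ : ℂ) * Complex.exp (θ * Complex.I)) ^ ((3 / 4 : ℝ) : ℂ) with hg
  have hgc : Continuous g := by
    rw [hg]
    refine continuous_const.div ?_ ?_
    · exact Continuous.cpow (by fun_prop) continuous_const hne
    · intro θ
      rw [Ne, Complex.cpow_eq_zero_iff]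
      intro hh
      exact Complex.slitPlane_ne_zero (hne θ) hh.1
  have hgn : ∀ θ : ℝ, ‖g θ‖ ^ 2 = ‖1 - (ρ : ℂ) * Complex.exp (θ * Complex.I)‖ ^ (-(3 / 2) : ℝ) := by
    intro θ
    have hpos : 0 < ‖1 - (ρ : ℂ) * Complex.exp (θ * Complex.I)‖ :=
      norm_pos_iff.mpr (Complex.slitPlane_ne_zero (hne θ))
    rw [hg]
    simp only
    rw [norm_div, norm_one, Complex.norm_cpow_real, one_div, ← Real.rpow_neg hpos.le, ← Real.rpow_natCast,
      ← Real.rpow_mul hpos.le]
    norm_num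
  have hsum := parseval (fun j => ac (3 / 4) j * ρ ^ j)
    (fun j => mul_nonneg (ac_nonneg _ (by norm_num) j) (pow_nonneg h0 j))
    (hasSum_real (3 / 4) ρ (by rw [abs_of_nonneg h0]; exact h1)).summable g hgc (by
      intro θ
      have := hasSum_complex (3 / 4) ((ρ : ℂ) * Complex.exp (θ * Complex.I)) (by rw [hz]; exact h1)
      have e6 : (fun j : ℕ => (ac (3 / 4) j : ℂ) * ((ρ : ℂ) * Complex.exp (θ * Complex.I)) ^ j) =
          fun j : ℕ => ((ac (3 / 4) j * ρ ^ j : ℝ) : ℂ) * Complex.exp ((j : ℂ) * (θ * Complex.I)) := by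
        funext j
        rw [mul_pow, ← Complex.exp_nat_mul]
        push_cast
        ring
      rw [e6] at this
      exact this)
  have hr := hasSum_real (1 / 2) (ρ ^ 2) (by rw [abs_of_nonneg (by positivity)]; nlinarith)
  simp only [hgn] at hsum
  have hr2 := hr.mul_left (2 * Real.pi * 1.2)
  have hle := hasSum_le (fun j => by
    have := coef_le' j
    have hp : 0 < Real.pi := Real.pi_pos
    have hq : 0 ≤ (ρ ^ 2) ^ j := by positivity
    calc 2 * Real.pi * (ac (3 / 4) j * ρ ^ j) ^ 2 = (2 * Real.pi * (ρ ^ 2) ^ j) * ac (3 / 4) j ^ 2 := by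
          rw [mul_pow, ← pow_mul, ← pow_mul, mul_comm j 2]; ring
      _ ≤ (2 * Real.pi * (ρ ^ 2) ^ j) * (1.2 * ac (1 / 2) j) := mul_le_mul_of_nonneg_left this (by positivity)
      _ = 2 * Real.pi * 1.2 * (ac (1 / 2) j * (ρ ^ 2) ^ j) := by ring) hsum hr2
  have hpos2 : 0 < 1 - ρ ^ 2 := by nlinarith
  calc _ ≤ (1 / (2 * Real.pi)) * (2 * Real.pi * 1.2 * (1 / (1 - ρ ^ 2) ^ (1 / 2 : ℝ))) :=
        mul_le_mul_of_nonneg_left hle (by positivity)
    _ = _ := by
        rw [Real.rpow_neg hpos2.le]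
        have := Real.pi_pos.ne'
        field_simp

end Pool.Agent.Q181.BA
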